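import Pool.Agent.W907.SM.Stmts

/-!
# Bounded homology over the truncated polynomial rings (`M_T3`)
-/

namespace Pool.Agent.W398.SM.T3

open Pool.Agent.W907.SG Pool.Agent.W907.SM

section
variable {p : ℕ} [Fact p.Prime]

instance finON (N : ℕ) : Module.Finite (ZMod p) (ON p N) :=
  Polynomial.Monic.finite_quotient (Polynomial.monic_X_pow N)

lemma aeval_hom {V R : Type} [CommRing R] (φ : Polynomial (ZMod p) →+* R)
    (s : V → Polynomial (ZMod p)) (f : MvPolynomial V ℤ) :
    MvPolynomial.aeval (fun v => φ (s v)) f = φ (MvPolynomial.aeval s f) :=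
  (MvPolynomial.comp_aeval_apply s φ.toIntAlgHom f).symm

/-- the kernel of the multiplication by `g ≠ 0` on `F_p[X]/(X^N)` has dimension at most `deg g` -/
lemma ker_le (N : ℕ) (g : Polynomial (ZMod p)) (hg : g ≠ 0) :
    Module.finrank (ZMod p) (LinearMap.ker (LinearMap.mulLeft (ZMod p)
      (Ideal.Quotient.mk _ g : ON p N))) ≤ g.natDegree := by
  set m : ON p N →ₗ[ZMod p] ON p N := LinearMap.mulLeft (ZMod p) (Ideal.Quotient.mk _ g : ON p N)
    with hm
  have h1 := LinearMap.finrank_range_add_finrank_ker m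
  have h2 := Submodule.finrank_quotient_add_finrank (LinearMap.range m)
  have h3 : Module.finrank (ZMod p) (LinearMap.ker m) =
      Module.finrank (ZMod p) (ON p N ⧸ LinearMap.range m) := by omega
  rw [h3]
  have hgf : Module.Finite (ZMod p) (Polynomial (ZMod p) ⧸ Ideal.span {g}) := by
    have : Module.Finite (ZMod p) (AdjoinRoot g) := (AdjoinRoot.powerBasis hg).finite
    exact this
  have hdim : Module.finrank (ZMod p) (Polynomial (ZMod p) ⧸ Ideal.span {g}) = g.natDegree := by
    have := (AdjoinRoot.powerBasis hg).finrank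
    rw [AdjoinRoot.powerBasis_dim] at this
    exact this
  rw [← hdim]
  -- the composite `F_p[X] → ON p N → ON p N / range m`
  let q : Polynomial (ZMod p) →ₗ[ZMod p] (ON p N ⧸ LinearMap.range m) :=
    (LinearMap.range m).mkQ ∘ₗ (Ideal.Quotient.mkₐ (ZMod p)
      (Ideal.span {(Polynomial.X : Polynomial (ZMod p)) ^ N})).toLinearMap
  have hq : Function.Surjective q := by
    intro x
    obtain ⟨y, rfl⟩ := Submodule.mkQ_surjective _ x
    obtain ⟨z, rfl⟩ := Ideal.Quotient.mk_surjective y
    exact ⟨z, rfl⟩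
  have hker : (Ideal.span {g}).restrictScalars (ZMod p) ≤ LinearMap.ker q := by
    intro x hx
    rw [Submodule.restrictScalars_mem, Ideal.mem_span_singleton] at hx
    obtain ⟨y, rfl⟩ := hx
    rw [LinearMap.mem_ker]
    show (LinearMap.range m).mkQ (Ideal.Quotient.mk _ (g * y)) = 0
    rw [Submodule.mkQ_apply, Submodule.Quotient.mk_eq_zero]
    refine ⟨Ideal.Quotient.mk _ y, ?_⟩
    rw [hm, LinearMap.mulLeft_apply, map_mul]
  let q' : (Polynomial (ZMod p) ⧸ (Ideal.span {g}).restrictScalars (ZMod p)) →ₗ[ZMod p]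
      (ON p N ⧸ LinearMap.range m) := Submodule.liftQ _ q hker
  have hq' : Function.Surjective q' := by
    intro x
    obtain ⟨y, hy⟩ := hq x
    exact ⟨Submodule.Quotient.mk y, by rw [← hy]; rfl⟩
  have hgf' : Module.Finite (ZMod p)
      (Polynomial (ZMod p) ⧸ (Ideal.span {g}).restrictScalars (ZMod p)) := hgf
  exact LinearMap.finrank_le_finrank_of_surjective hq'

end

/-- `M_T3` -/
theorem main : M_T3 := by
  intro p _ V C _ _ _ _ G col i f α β _ hkill hne
  classical
  refine ⟨∑ χ : V → Bool, Fintype.card (Finset V) * (Fintype.card (C → Bool) *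
    (MvPolynomial.aeval (slope α β χ) f : Polynomial (ZMod p)).natDegree), ?_⟩
  intro N χ ρ hρ
  refine le_trans ?_ (Finset.single_le_sum (f := fun χ : V → Bool =>
    Fintype.card (Finset V) * (Fintype.card (C → Bool) *
    (MvPolynomial.aeval (slope α β χ) f : Polynomial (ZMod p)).natDegree))
    (fun _ _ => Nat.zero_le _) (Finset.mem_univ χ))
  set g : Polynomial (ZMod p) := MvPolynomial.aeval (slope α β χ) f with hg
  let τ : V → ON p N := fun v => Ideal.Quotient.mk _ (slope α β χ v)
  have hτ := aeval_hom (Ideal.Quotient.mk (Ideal.span {(Polynomial.X : Polynomial (ZMod p)) ^ N}))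
    (slope α β χ) f
  -- chains
  have hKK : ∀ (j : ℕ) (c : Finset V → (C → Bool) → ON p N),
      c ∈ KK G ρ Set.univ ∅ j ↔ IsLC G col Set.univ τ Set.univ j c := by
    intro j c
    rw [mem_KK]
    constructor
    · rintro ⟨h1, h2⟩
      exact ⟨h1, fun T t ht _ ε => (hρ t (c T)).1 (h2 T t (Or.inl ht)) ε⟩
    · rintro ⟨h1, h2⟩
      refine ⟨h1, fun T t ht => ?_⟩
      rcases ht with ht | ht
      · exact (hρ t (c T)).2 fun ε => h2 T t ht (Set.mem_univ _) ε
      · exact absurd ht (Set.notMem_empty _)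
  let m : ON p N →ₗ[ZMod p] ON p N := LinearMap.mulLeft (ZMod p) (Ideal.Quotient.mk _ g : ON p N)
  let μ : (Finset V → (C → Bool) → ON p N) →ₗ[ZMod p] (Finset V → (C → Bool) → ON p N) :=
    { toFun := fun c T ε => m (c T ε)
      map_add' := fun c d => by funext T ε; simp
      map_smul' := fun a c => by funext T ε; simp }
  have hμ : (ZZ G ρ Set.univ ∅ i).map μ ≤ BB G ρ Set.univ ∅ i := by
    rintro _ ⟨z, hz, rfl⟩
    have hz1 : IsLC G col Set.univ τ Set.univ i z := (hKK i z).1 hz.1
    have hz2 : bdd z = 0 := hz.2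
    obtain ⟨y, hy1, hy2⟩ := hkill (ON p N) τ z hz1 hz2
    refine ⟨y, (hKK (i + 1) y).2 hy1, ?_⟩
    have h3 : bd (ZMod p) y = bdd y := rfl
    rw [h3, hy2]
    funext T ε
    show _ = Ideal.Quotient.mk _ g * z T ε
    rw [hg, ← hτ]
  have h1 := LinearMap.finrank_range_add_finrank_ker (μ.domRestrict (ZZ G ρ Set.univ ∅ i))
  have h2 : LinearMap.range (μ.domRestrict (ZZ G ρ Set.univ ∅ i)) =
      (ZZ G ρ Set.univ ∅ i).map μ := by
    rw [LinearMap.range_domRestrict]
  have h3 : Module.finrank (ZMod p) (LinearMap.range (μ.domRestrict (ZZ G ρ Set.univ ∅ i))) ≤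
      Module.finrank (ZMod p) (BB G ρ Set.univ ∅ i) := by
    rw [h2]
    exact Submodule.finrank_mono hμ
  -- the kernel
  let κ : LinearMap.ker (μ.domRestrict (ZZ G ρ Set.univ ∅ i)) →ₗ[ZMod p]
      (Finset V → (C → Bool) → LinearMap.ker m) :=
    { toFun := fun c T ε => ⟨c.1.1 T ε, by
        have := c.2
        rw [LinearMap.mem_ker] at this
        exact congrFun (congrFun this T) ε⟩
      map_add' := fun c d => by funext T ε; rfl
      map_smul' := fun a c => by funext T ε; rfl }
  have hκ : Function.Injective κ := by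
    intro c d h
    apply Subtype.ext
    apply Subtype.ext
    funext T ε
    exact congrArg Subtype.val (congrFun (congrFun h T) ε)
  have h4 := LinearMap.finrank_le_finrank_of_injective hκ
  have h5 : Module.finrank (ZMod p) (Finset V → (C → Bool) → LinearMap.ker m) =
      Fintype.card (Finset V) * (Fintype.card (C → Bool) *
        Module.finrank (ZMod p) (LinearMap.ker m)) := by
    rw [Module.finrank_pi_fintype]
    simp only [Finset.sum_const, Finset.card_univ, smul_eq_mul, Module.finrank_pi_fintype]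
  have h6 : Module.finrank (ZMod p) (LinearMap.ker m) ≤ g.natDegree := ker_le N g (hne χ)
  have h7 : Fintype.card (Finset V) * (Fintype.card (C → Bool) *
        Module.finrank (ZMod p) (LinearMap.ker m)) ≤ Fintype.card (Finset V) *
        (Fintype.card (C → Bool) * g.natDegree) := by gcongr
  unfold beta
  rw [h5] at h4
  omega

end Pool.Agent.W398.SM.T3
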